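import Pool.Agent.Q44.SA.Stm

/-!
# Project SA (helper44), job RE: recurrence

`S_recM` is proved for homogeneous ideals (`S_recMH`). Without homogeneity it is false: `n = 2`,
`I = (X 0 - 1/p)`, `φ = (p X0², X0 X1)`, `ψ = (p X0², p² X0 X1)`; `V(I)` has no points of norm one, and the
orbit `(1/p, p^(-k))` does not recur.
-/

set_option autoImplicit false

namespace Pool.Agent.Q68.SA.RE

open MvPolynomial Pool.Agent.Q44.SA

/-- **S_recMH.** `S_recM` for homogeneous ideals. -/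
def S_recMH : Prop := ∀ (K : Type) [Field K] (κ : Type) [Fintype κ] (L : κ → Type)
  [∀ i, NontriviallyNormedField (L i)] [∀ i, IsUltrametricDist (L i)] [∀ i, ProperSpace (L i)]
  (σ : ∀ i, K →+* L i) (n : ℕ) (I : Ideal (MvPolynomial (Fin n) K)) (φ ψ : Mor I), LeftInv ψ φ →
  Homog I → (∀ i, GoodM φ (σ i)) → (∀ i, GoodM ψ (σ i)) →
  ∀ z : ℕ → Fin n → K, Orb φ (RingHom.id K) z → ∀ ε : ℝ, 0 < ε →
  ∃ m : ℕ, 0 < m ∧ ∀ (j : ℕ) (i : κ), ∃ c : L i, c ≠ 0 ∧ ‖c • (σ i ∘ z (m * j)) - σ i ∘ z 0‖ ≤ ε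

lemma exists_unit {L : Type} [NormedField L] {n : ℕ} (v : Fin n → L) (hv : v ≠ 0) :
    ∃ t : L, t ≠ 0 ∧ ‖t • v‖ = 1 := by
  obtain ⟨a0, -⟩ := Function.ne_iff.1 hv
  have : Nonempty (Fin n) := ⟨a0⟩
  obtain ⟨a, ha⟩ := Finite.exists_max (fun a => ‖v a‖)
  have hva : v a ≠ 0 := by
    intro h0
    apply hv
    funext b
    have := ha b
    rw [h0, norm_zero] at this
    exact norm_le_zero_iff.1 this
  have hva' : 0 < ‖v a‖ := norm_pos_iff.2 hva
  refine ⟨(v a)⁻¹, inv_ne_zero hva, le_antisymm ?_ ?_⟩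
  · rw [pi_norm_le_iff_of_nonneg zero_le_one]
    intro b
    rw [Pi.smul_apply, smul_eq_mul, norm_mul, norm_inv, inv_mul_le_iff₀ hva', mul_one]
    exact ha b
  · have h1 := norm_le_pi_norm ((v a)⁻¹ • v) a
    rw [Pi.smul_apply, smul_eq_mul, inv_mul_cancel₀ hva, norm_one] at h1
    exact h1

lemma near_refl {L : Type} [NormedField L] {n : ℕ} {ε : ℝ} (hε : 0 ≤ ε) (x : Fin n → L) :
    Near ε x x := by
  refine ⟨1, norm_one, ?_⟩
  rw [one_smul, sub_self, norm_zero]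
  exact hε

lemma near_trans {L : Type} [NormedField L] [IsUltrametricDist L] {n : ℕ} {ε : ℝ}
    {x y z : Fin n → L} (h1 : Near ε x y) (h2 : Near ε y z) : Near ε x z := by
  obtain ⟨s, hs, h1⟩ := h1
  obtain ⟨t, ht, h2⟩ := h2
  have hε : 0 ≤ ε := (norm_nonneg _).trans h1
  refine ⟨s * t, by rw [norm_mul, hs, ht, one_mul], ?_⟩
  rw [pi_norm_le_iff_of_nonneg hε] at h1 h2 ⊢
  intro a
  have e : (x - (s * t) • z) a = (x - s • y) a + s * (y - t • z) a := by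
    simp only [Pi.sub_apply, Pi.smul_apply, smul_eq_mul]
    ring
  rw [e]
  refine (IsUltrametricDist.norm_add_le_max _ _).trans (max_le (h1 a) ?_)
  rw [norm_mul, hs, one_mul]
  exact h2 a

lemma eval_hom {K F : Type} [Field K] [Field F] (σ : K →+* F) {n d : ℕ}
    {p : MvPolynomial (Fin n) K} (hp : p.IsHomogeneous d) (s : F) (x : Fin n → F) :
    eval₂ σ (s • x) p = s ^ d * eval₂ σ x p := by
  rw [eval₂_eq', eval₂_eq', Finset.mul_sum]
  refine Finset.sum_congr rfl fun m hm => ?_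
  have h0 : ∑ i, m i = d := by
    have h := hp (mem_support_iff.1 hm)
    rw [← h, Finsupp.weight_apply, Finsupp.sum_fintype _ _ (fun i => by simp)]
    exact Finset.sum_congr rfl fun i _ => by simp
  have h1 : ∏ i, (s • x) i ^ m i = s ^ d * ∏ i, x i ^ m i := by
    simp_rw [Pi.smul_apply, smul_eq_mul, mul_pow]
    rw [Finset.prod_mul_distrib, Finset.prod_pow_eq_pow_sum, h0]
  rw [h1]
  ring

lemma eval_map {K F : Type} [Field K] [Field F] (σ : K →+* F) {n : ℕ}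
    (p : MvPolynomial (Fin n) K) (x : Fin n → K) :
    eval₂ σ (σ ∘ x) p = σ (eval₂ (RingHom.id K) x p) := by
  rw [eval₂_comp_left, RingHom.comp_id]

section
variable {K F : Type} [Field K] [Field F] (σ : K →+* F) {n : ℕ} {I : Ideal (MvPolynomial (Fin n) K)}

lemma pt_map {x : Fin n → K} (h : Pt (RingHom.id K) I x) : Pt σ I (σ ∘ x) := by
  refine ⟨fun h0 => h.1 ?_, fun f hf => ?_⟩
  · funext a
    have h1 := congrFun h0 a
    rw [Function.comp_apply, Pi.zero_apply, map_eq_zero] at h1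
    exact h1
  · rw [eval_map, h.2 f hf, map_zero]

lemma pt_smul (hI : Homog I) {x : Fin n → F} (h : Pt σ I x) {s : F} (hs : s ≠ 0) :
    Pt σ I (s • x) := by
  refine ⟨smul_ne_zero hs h.1, fun f hf => ?_⟩
  rw [← sum_homogeneousComponent f, eval₂_sum]
  refine Finset.sum_eq_zero fun d _ => ?_
  rw [eval_hom σ (homogeneousComponent_isHomogeneous d f), h.2 _ (hI f hf d), mul_zero]

lemma rel_map (φ : Mor I) {x y : Fin n → K} (h : φ.Rel (RingHom.id K) x y) :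
    φ.Rel σ (σ ∘ x) (σ ∘ y) := by
  obtain ⟨l, ⟨a, ha⟩, c, hc, h⟩ := h
  refine ⟨l, ⟨a, ?_⟩, σ c, (map_ne_zero σ).2 hc, fun b => ?_⟩
  · rw [eval_map]
    exact (map_ne_zero σ).2 ha
  · rw [eval_map, ← map_mul, ← h b]
    rfl

end

/-- from the normalised vectors to the original ones -/
lemma fin_step {L : Type} [NormedField L] {n : ℕ} {ε ε' : ℝ} {t t₀ : L} (ht : t ≠ 0) (ht₀ : t₀ ≠ 0)
    {v v₀ : Fin n → L} (h : Near ε' (t • v) (t₀ • v₀)) (hε : ‖t₀‖⁻¹ * ε' ≤ ε) :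
    ∃ c : L, c ≠ 0 ∧ ‖c • v - v₀‖ ≤ ε := by
  obtain ⟨s, hs, h⟩ := h
  have hs0 : s ≠ 0 := by
    intro h0
    rw [h0, norm_zero] at hs
    exact zero_ne_one hs
  refine ⟨(s * t₀)⁻¹ * t, mul_ne_zero (inv_ne_zero (mul_ne_zero hs0 ht₀)) ht, ?_⟩
  have e : ((s * t₀)⁻¹ * t) • v - v₀ = (s * t₀)⁻¹ • (t • v - s • t₀ • v₀) := by
    rw [smul_sub, smul_smul, smul_smul, smul_smul, mul_assoc,
      inv_mul_cancel₀ (mul_ne_zero hs0 ht₀), one_smul]
  rw [e, norm_smul, norm_inv, norm_mul, hs, one_mul]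
  exact (mul_le_mul_of_nonneg_left h (inv_nonneg.2 (norm_nonneg _))).trans hε

theorem main (h1 : S_rel) (h2 : S_nearM) : S_recMH := by
  intro K _ κ _ L _ _ _ σ n I φ ψ hLI hI hgφ hgψ z hz ε hε
  classical
  have hPz : ∀ (i : κ) (k : ℕ), Pt (σ i) I (σ i ∘ z k) := fun i k => pt_map (σ i) (hz.1 k)
  choose t ht0 ht1 using fun (i : κ) (k : ℕ) => exists_unit (σ i ∘ z k) (hPz i k).1
  obtain ⟨T, hT⟩ : ∃ T : ℝ, T = 1 + ∑ i, ‖t i 0‖⁻¹ := ⟨_, rfl⟩
  have hsum : 0 ≤ ∑ i, ‖t i 0‖⁻¹ := Finset.sum_nonneg fun i _ => inv_nonneg.2 (norm_nonneg _)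
  have hTs : ∀ i, ‖t i 0‖⁻¹ ≤ T := by
    intro i
    have h := Finset.single_le_sum (s := Finset.univ) (f := fun i => ‖t i 0‖⁻¹)
      (fun i _ => inv_nonneg.2 (norm_nonneg _)) (Finset.mem_univ i)
    rw [hT]
    have h' : ‖t i 0‖⁻¹ ≤ ∑ i, ‖t i 0‖⁻¹ := h
    linarith
  have hT1 : 1 ≤ T := by rw [hT]; linarith
  obtain ⟨ε', hε'⟩ : ∃ ε' : ℝ, ε' = min (1 / 2) (ε / T) := ⟨_, rfl⟩
  have hε'0 : 0 < ε' := by rw [hε']; exact lt_min (by norm_num) (by positivity)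
  have hε'1 : ε' < 1 := by rw [hε']; exact (min_le_left _ _).trans_lt (by norm_num)
  have hε'T : T * ε' ≤ ε := by
    have h : ε' ≤ ε / T := by rw [hε']; exact min_le_right _ _
    rw [le_div_iff₀ (by linarith)] at h
    linarith
  have hb0 : ∀ i, ‖t i 0‖⁻¹ * ε' ≤ ε := fun i =>
    (mul_le_mul_of_nonneg_right (hTs i) hε'0.le).trans hε'T
  -- the normalised orbit
  obtain ⟨U, hU⟩ : ∃ U : ∀ i : κ, ℕ → Fin n → L i, U = fun i k => t i k • (σ i ∘ z k) := ⟨_, rfl⟩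
  have hUk : ∀ i k, U i k = t i k • (σ i ∘ z k) := fun i k => by rw [hU]
  have hU1 : ∀ i k, ‖U i k‖ = 1 := fun i k => by rw [hUk]; exact ht1 i k
  have hUP : ∀ i k, Pt (σ i) I (U i k) := fun i k => by
    rw [hUk]
    exact pt_smul (σ i) hI (hPz i k) (ht0 i k)
  have hUφ : ∀ i k, φ.Rel (σ i) (U i k) (U i (k + 1)) := by
    intro i k
    rw [hUk, hUk]
    exact ((h1 K (L i) (σ i) n I φ ψ hLI _ (hPz i k)).2 _ (rel_map (σ i) φ (hz.2 k))).2.2.1
      _ _ (ht0 i k) (ht0 i (k + 1))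
  have hUψ : ∀ i k, ψ.Rel (σ i) (U i (k + 1)) (U i k) := fun i k =>
    ((h1 K (L i) (σ i) n I φ ψ hLI _ (hUP i k)).2 _ (hUφ i k)).2.1
  -- pigeon hole principle
  obtain ⟨xs, hxs⟩ : ∃ xs : ℕ → ∀ i : κ, Fin n → L i, xs = fun k i => U i k := ⟨_, rfl⟩
  have hxsk : ∀ k i, xs k i = U i k := fun k i => by rw [hxs]
  have hxb : ∀ k, xs k ∈ Metric.closedBall (0 : ∀ i : κ, Fin n → L i) 1 := by
    intro k
    rw [Metric.mem_closedBall, dist_zero_right, pi_norm_le_iff_of_nonneg zero_le_one]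
    intro i
    rw [hxsk]
    exact (hU1 i _).le
  obtain ⟨a, -, s, hs, hlim⟩ := tendsto_subseq_of_bounded Metric.isBounded_closedBall hxb
  obtain ⟨N, hN⟩ := Metric.cauchySeq_iff'.1 hlim.cauchySeq ε' hε'0
  have hd := hN (N + 1) (by omega)
  have hlt : s N < s (N + 1) := hs (by omega)
  obtain ⟨m₁, hm₁⟩ : ∃ m₁, m₁ = s N := ⟨_, rfl⟩
  obtain ⟨m, hm0, hm⟩ : ∃ m, 0 < m ∧ s (N + 1) = m₁ + m := ⟨s (N + 1) - m₁, by omega, by omega⟩
  have hP0 : ∀ i, Near ε' (U i (m₁ + m)) (U i m₁) := by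
    intro i
    have h3 : dist (xs (s (N + 1))) (xs (s N)) < ε' := hd
    rw [hm, ← hm₁] at h3
    have h4 := (dist_le_pi_dist (xs (m₁ + m)) (xs m₁) i).trans_lt h3
    rw [hxsk, hxsk, dist_eq_norm] at h4
    refine ⟨1, norm_one, ?_⟩
    rw [one_smul]
    exact h4.le
  have hdown : ∀ i k, Near ε' (U i (k + 1 + m)) (U i (k + 1)) → Near ε' (U i (k + m)) (U i k) := by
    intro i k h
    have e : k + 1 + m = k + m + 1 := by ring
    rw [e] at h
    exact h2 K (L i) (σ i) n I ψ (hgψ i) ε' hε'0 hε'1 _ _ _ _ (hUP i _) (hUP i _) (hU1 i _)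
      (hU1 i _) (hU1 i _) (hU1 i _) (hUψ i (k + m)) (hUψ i k) h
  have hup : ∀ i k, Near ε' (U i (k + m)) (U i k) → Near ε' (U i (k + 1 + m)) (U i (k + 1)) := by
    intro i k h
    have e : k + 1 + m = k + m + 1 := by ring
    rw [e]
    exact h2 K (L i) (σ i) n I φ (hgφ i) ε' hε'0 hε'1 _ _ _ _ (hUP i _) (hUP i _) (hU1 i _)
      (hU1 i _) (hU1 i _) (hU1 i _) (hUφ i (k + m)) (hUφ i k) h
  have hdesc : ∀ i k, Near ε' (U i (k + m)) (U i k) → Near ε' (U i (0 + m)) (U i 0) := by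
    intro i k
    induction k with
    | zero => exact fun h => h
    | succ k ih => exact fun h => ih (hdown i k h)
  have hasc : ∀ i k, Near ε' (U i (k + m)) (U i k) := by
    intro i k
    induction k with
    | zero => exact hdesc i _ (hP0 i)
    | succ k ih => exact hup i k ih
  have hall : ∀ (j : ℕ) (i : κ), Near ε' (U i (m * j)) (U i 0) := by
    intro j i
    induction j with
    | zero => exact near_refl hε'0.le _
    | succ j ih =>
      have e : m * (j + 1) = m * j + m := by ring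
      rw [e]
      exact near_trans (hasc i (m * j)) ih
  refine ⟨m, hm0, fun j i => ?_⟩
  have h5 := hall j i
  rw [hUk i (m * j), hUk i 0] at h5
  exact fin_step (ht0 i (m * j)) (ht0 i 0) h5 (hb0 i)

end Pool.Agent.Q68.SA.RE
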